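import Pool.Graph.R_seed8.H307R2.LU

/-!
# Growth of zeta to the right of the critical line, exponent one half
-/

set_option autoImplicit false

open MeasureTheory Filter Topology Set

namespace Pool.Agent.H161.HD

open Pool.Agent.H307R2

lemma sum_half (N : ℕ) :
    ∑ n ∈ Finset.Icc 1 N, (n : ℝ) ^ (-(1 / 2) : ℝ) ≤ 2 * Real.sqrt N := by
  induction N with
  | zero => simp
  | succ N ih =>
    rw [Finset.sum_Icc_succ_top (by omega)]
    have h0 : (0 : ℝ) ≤ N := Nat.cast_nonneg N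
    have h1 : ((N + 1 : ℕ) : ℝ) = (N : ℝ) + 1 := by push_cast; ring
    rw [h1]
    have hN1 : (0 : ℝ) < (N : ℝ) + 1 := by linarith
    have e : ((N : ℝ) + 1) ^ (-(1 / 2) : ℝ) = 1 / Real.sqrt ((N : ℝ) + 1) := by
      rw [Real.rpow_neg hN1.le, ← Real.sqrt_eq_rpow, one_div]
    rw [e]
    have ha := Real.sqrt_nonneg (N : ℝ)
    have hb : 0 < Real.sqrt ((N : ℝ) + 1) := Real.sqrt_pos.mpr hN1
    have ha2 := Real.sq_sqrt h0
    have hb2 := Real.sq_sqrt hN1.le
    have hab : Real.sqrt (N : ℝ) ≤ Real.sqrt ((N : ℝ) + 1) := Real.sqrt_le_sqrt (by linarith)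
    have h2 : 1 / Real.sqrt ((N : ℝ) + 1) ≤ 2 * (Real.sqrt ((N : ℝ) + 1) - Real.sqrt N) := by
      rw [div_le_iff₀ hb]
      nlinarith
    linarith

/-- growth of zeta to the right of the critical line -/
theorem zeta_half {s : ℂ} (hs : 1 / 2 ≤ s.re) (hy : 1 ≤ |s.im|) :
    ‖riemannZeta s‖ ≤ 6 * (1 + |s.im|) ^ (1 / 2 : ℝ) := by
  set y := |s.im| with hyd
  set N : ℕ := ⌈y⌉₊ with hN
  have hy0 : 0 ≤ y := by linarith
  have hN1 : 1 ≤ N := by
    rw [hN]
    exact Nat.one_le_ceil_iff.mpr (by linarith)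
  have hNy : y ≤ N := Nat.le_ceil y
  have hNy1 : (N : ℝ) ≤ 1 + y := by
    have := Nat.ceil_lt_add_one hy0
    linarith
  have hN1' : (1 : ℝ) ≤ N := by exact_mod_cast hN1
  have hN0 : (0 : ℝ) < N := by linarith
  have hs1 : s ≠ 1 := by
    intro h
    rw [hyd, h] at hy
    norm_num at hy
  have hsre : 0 < s.re := by linarith
  rw [zeta_eq hN1 hsre hs1]
  have hq := Real.sqrt_nonneg (N : ℝ)
  have hq2 := Real.sq_sqrt hN0.le
  have hq1 : 1 ≤ Real.sqrt (N : ℝ) := Real.one_le_sqrt.mpr hN1'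
  have t1 : ‖∑ n ∈ Finset.Icc 1 N, (n : ℂ) ^ (-s)‖ ≤ 2 * Real.sqrt N := by
    refine (norm_sum_le _ _).trans (le_trans (Finset.sum_le_sum fun n hn => ?_) (sum_half N))
    rw [Finset.mem_Icc] at hn
    have hn1 : (1 : ℝ) ≤ n := by exact_mod_cast hn.1
    rw [Complex.norm_natCast_cpow_of_pos (by omega), Complex.neg_re]
    exact Real.rpow_le_rpow_of_exponent_le hn1 (by linarith)
  have t2 : ‖(N : ℂ) ^ (1 - s) / (s - 1)‖ ≤ Real.sqrt N := by
    rw [norm_div, Complex.norm_natCast_cpow_of_pos (by omega)]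
    have h1 : 1 ≤ ‖s - 1‖ := by
      have h2 := Complex.abs_im_le_norm (s - 1)
      rw [Complex.sub_im, Complex.one_im, sub_zero] at h2
      linarith
    have h3 : (N : ℝ) ^ (1 - s).re ≤ Real.sqrt N := by
      rw [Real.sqrt_eq_rpow]
      apply Real.rpow_le_rpow_of_exponent_le hN1'
      rw [Complex.sub_re, Complex.one_re]
      linarith
    rw [div_le_iff₀ (by linarith)]
    nlinarith
  have t3 : ‖s * TM N Ez s‖ ≤ 3 * Real.sqrt N := by
    rw [norm_mul]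
    have h1 := TM_norm_le hN1 (E := Ez) (B := 1) Ez_norm_le hsre
    have h2 : ‖s‖ ≤ s.re + y := by
      have := Complex.norm_le_abs_re_add_abs_im s
      rwa [abs_of_pos hsre] at this
    have h3 : (N : ℝ) ^ (-s.re) ≤ 1 / Real.sqrt N := by
      have e : 1 / Real.sqrt (N : ℝ) = (N : ℝ) ^ (-(1 / 2) : ℝ) := by
        rw [Real.rpow_neg hN0.le, ← Real.sqrt_eq_rpow, one_div]
      rw [e]
      exact Real.rpow_le_rpow_of_exponent_le hN1' (by linarith)
    have hp : 0 < (N : ℝ) ^ (-s.re) := Real.rpow_pos_of_pos hN0 _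
    have h4 : ‖s‖ * ‖TM N Ez s‖ ≤ (s.re + y) * (1 * ((N : ℝ) ^ (-s.re) / s.re)) :=
      mul_le_mul h2 h1 (norm_nonneg _) (by linarith)
    have h5 : (s.re + y) * (1 * ((N : ℝ) ^ (-s.re) / s.re)) =
        (1 + y / s.re) * (N : ℝ) ^ (-s.re) := by
      field_simp
    have h6 : y / s.re ≤ 2 * y := by
      rw [div_le_iff₀ hsre]
      nlinarith
    have h7 : (1 + y / s.re) * (N : ℝ) ^ (-s.re) ≤ (3 * N) * (1 / Real.sqrt N) :=
      mul_le_mul (by linarith) h3 hp.le (by linarith)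
    have h8 : (3 * (N : ℝ)) * (1 / Real.sqrt N) = 3 * Real.sqrt N := by
      have hq0 : Real.sqrt (N : ℝ) ≠ 0 := by positivity
      field_simp
      linarith
    rw [h5] at h4
    linarith
  refine (norm_add_le _ _).trans ?_
  have h6 : Real.sqrt (N : ℝ) ≤ (1 + y) ^ (1 / 2 : ℝ) := by
    rw [Real.sqrt_eq_rpow]
    exact Real.rpow_le_rpow hN0.le hNy1 (by norm_num)
  have h7 := norm_add_le (∑ n ∈ Finset.Icc 1 N, (n : ℂ) ^ (-s)) ((N : ℂ) ^ (1 - s) / (s - 1))
  linarith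

end Pool.Agent.H161.HD
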