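import Pool.Agent.H466.HD.SC
import Pool.Agent.H161.HD.ZH

/-!
# Size of the backward heat flow at a bounded distance from the line
-/

set_option autoImplicit false

namespace Pool.Agent.H161.HD

open Complex MeasureTheory Set Filter Topology
open scoped ComplexConjugate
open Pool.Agent.H466.HF Pool.Agent.H466.LD Pool.Agent.H466.HP Pool.Agent.H466.HN Pool.Agent.H466.HD

/-- the global data with the growth exponent one half -/
theorem gd_half : ∃ b C2 : ℝ, Gd (LL gk 0) gz Dz 12 b (1 / 2) C2 9 := by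
  obtain ⟨b, B, C2, H⟩ := gd_xi
  have hB := H.B0
  have hC2 := H.C20
  have h2B : (1 : ℝ) ≤ 2 ^ B := Real.one_le_rpow (by norm_num) hB
  refine ⟨b, C2 * 2 ^ B + 6, H.G, H.diff, H.b0, by norm_num, by nlinarith, H.lo, H.hi, ?_, H.sym,
    H.L⟩
  intro z hz
  have hy := abs_nonneg z.im
  have hp1 : (1 : ℝ) ≤ (1 + |z.im|) ^ (1 / 2 : ℝ) := Real.one_le_rpow (by linarith) (by norm_num)
  rcases le_or_gt 1 |z.im| with h | h
  · have him : (1 / 2 + z : ℂ).im = z.im := by simp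
    have hre : (1 / 2 + z : ℂ).re = 1 / 2 + z.re := by simp
    have hne : (1 / 2 + z : ℂ) ≠ 1 := by
      intro h5
      have := congrArg im h5
      rw [him] at this
      rw [this] at h
      norm_num at h
    rw [xi_norm hz, mul_comm]
    apply mul_le_mul_of_nonneg_right _ (norm_nonneg _)
    have h4 := den_norm hz
    have h6 := zeta_half (s := 1 / 2 + z) (by rw [hre]; linarith) (by rw [him]; exact h)
    rw [him] at h6
    rw [Z1_ne hne, norm_mul, div_le_iff₀ (by linarith)]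
    have h7 := ratio_le hz
    have h8 : 0 ≤ (1 + |z.im|) ^ (1 / 2 : ℝ) := by linarith
    calc ‖(1 / 2 + z) - 1‖ * ‖riemannZeta (1 / 2 + z)‖
        ≤ ‖z + 3 / 2‖ * (6 * (1 + |z.im|) ^ (1 / 2 : ℝ)) := by gcongr
      _ ≤ ‖z + 3 / 2‖ * ((C2 * 2 ^ B + 6) * (1 + |z.im|) ^ (1 / 2 : ℝ)) := by
          gcongr
          nlinarith
      _ = _ := mul_comm _ _
  · refine (H.up z hz).trans ?_
    apply mul_le_mul_of_nonneg_right _ (norm_nonneg _)
    have h1 : (1 + |z.im|) ^ B ≤ 2 ^ B := Real.rpow_le_rpow (by linarith) (by linarith) hB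
    have h2 : C2 * (1 + |z.im|) ^ B ≤ C2 * 2 ^ B := mul_le_mul_of_nonneg_left h1 (by linarith)
    have h3 : 0 ≤ C2 * 2 ^ B := by positivity
    nlinarith

/-- the local data with `(log T) / 2` and the exponent one half -/
theorem loc_one : ∃ (K : ℝ) (Q : ℂ → ℂ) (T0 : ℝ), 1 ≤ K ∧ 10 ≤ T0 ∧
    ∀ T t : ℝ, T0 ≤ T → T ≤ t → t ≤ 2 * T →
      Loc (LL gk 0) Q t (Real.log T / 2) ‖gz ((t : ℂ) * I)‖ K 1 := by
  obtain ⟨b, C2, H⟩ := gd_half
  obtain ⟨K, hK, T0, hT0, hloc⟩ := H.loc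
  refine ⟨K + 10 * (1 + 1), ld (LL gk 0) gz Dz, max (max T0 10) (Real.exp 2), by linarith,
    (le_max_right _ _).trans (le_max_left _ _), ?_⟩
  intro T t hT h1 h2
  have hTT0 : T0 ≤ T := ((le_max_left _ _).trans (le_max_left _ _)).trans hT
  have hT10 : 10 ≤ T := ((le_max_right _ _).trans (le_max_left _ _)).trans hT
  have hTe : Real.exp 2 ≤ T := (le_max_right _ _).trans hT
  have hℓ : 1 ≤ Real.log T / 2 := by
    have : 2 ≤ Real.log T := by rwa [Real.le_log_iff_exp_le (by linarith)]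
    linarith
  have h3 := hloc t (by linarith)
  have e : (2 : ℝ) * (1 / 2) = 1 := by norm_num
  rw [e] at h3
  exact Loc.shift h3 (c := 10) (by norm_num) (Dz_close (by linarith) h1 h2) hℓ

lemma gauss8 {μ : ℝ} (hμ : 0 < μ) : Integrable (fun v : ℝ => Real.exp (-v ^ 2 / (8 * μ))) ∧
    ∫ v : ℝ, Real.exp (-v ^ 2 / (8 * μ)) ≤ 2 * Real.sqrt (Real.pi * (4 * μ)) := by
  have hS := sqrt_pos' hμ
  refine ⟨ga_integrable (k := 8 * μ) (by positivity), ?_⟩
  have h1 := ga_integral (k := 8 * μ) (by positivity)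
  unfold ga at h1
  rw [h1, show Real.pi * (8 * μ) = 2 * (Real.pi * (4 * μ)) by ring,
    Real.sqrt_mul (by norm_num)]
  apply mul_le_mul_of_nonneg_right _ hS.le
  rw [Real.sqrt_le_left (by norm_num)]
  norm_num

/-- upper bound for the backward heat flow -/
lemma back_up (h : S_BACK) {μ ℓ Γ K t : ℝ}
    (hup : ∀ z : ℂ, ‖LL gk 0 z‖ ≤
      Γ * Real.exp (ℓ * (|z.re| + 1) + K * (1 + z.re ^ 2 + (z.im - t) ^ 2)))
    (hμ : 0 < μ) (hK : 0 ≤ K) (h16 : 16 * K * μ ≤ 1) (hΓ : 0 < Γ) (x y : ℝ) :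
    ‖LL gk (-μ) ((x : ℂ) + (y : ℂ) * I)‖ ≤
      2 * (Γ * Real.exp (ℓ * (|x| + 1) + K * (1 + x ^ 2 + 2 * (y - t) ^ 2))) := by
  have hS := sqrt_pos' hμ
  obtain ⟨i8, v8⟩ := gauss8 hμ
  set E : ℝ := ℓ * (|x| + 1) + K * (1 + x ^ 2 + 2 * (y - t) ^ 2) with hE
  have h1 := h μ hμ ((x : ℂ) + (y : ℂ) * I) 0
  have e0 : Real.exp (-((0 : ℝ) ^ 2 / (4 * μ))) = 1 := by norm_num
  rw [e0, mul_one, ofReal_zero, add_zero] at h1
  have hb : ∀ v : ℝ, ‖LL gk 0 ((x : ℂ) + (y : ℂ) * I + v * I)‖ * Real.exp (-v ^ 2 / (4 * μ)) ≤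
      Γ * Real.exp E * Real.exp (-v ^ 2 / (8 * μ)) := by
    intro v
    have h2 := hup ((x : ℂ) + (y : ℂ) * I + v * I)
    have e1 : ((x : ℂ) + (y : ℂ) * I + v * I).re = x := by simp
    have e2 : ((x : ℂ) + (y : ℂ) * I + v * I).im = y + v := by simp
    rw [e1, e2] at h2
    refine (mul_le_mul_of_nonneg_right h2 (Real.exp_pos _).le).trans ?_
    rw [mul_assoc Γ, mul_assoc Γ, ← Real.exp_add, ← Real.exp_add]
    apply mul_le_mul_of_nonneg_left _ hΓ.le
    apply Real.exp_le_exp.mpr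
    have e3 : -v ^ 2 / (4 * μ) = -(v ^ 2 / (8 * μ)) + -v ^ 2 / (8 * μ) := by
      field_simp
      ring
    have h3 : 2 * K * v ^ 2 ≤ v ^ 2 / (8 * μ) := by
      rw [le_div_iff₀ (by positivity)]
      have : 16 * K * μ * v ^ 2 ≤ 1 * v ^ 2 := mul_le_mul_of_nonneg_right h16 (sq_nonneg v)
      linarith
    have h4 : (y + v - t) ^ 2 ≤ 2 * (y - t) ^ 2 + 2 * v ^ 2 := by
      nlinarith [sq_nonneg (y - t - v)]
    have h5 : K * (1 + x ^ 2 + (y + v - t) ^ 2) ≤
        K * (1 + x ^ 2 + (2 * (y - t) ^ 2 + 2 * v ^ 2)) :=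
      mul_le_mul_of_nonneg_left (by linarith) hK
    rw [e3, hE]
    linarith
  have h2 : ∫ v : ℝ, ‖LL gk 0 ((x : ℂ) + (y : ℂ) * I + v * I)‖ * Real.exp (-v ^ 2 / (4 * μ)) ≤
      ∫ v : ℝ, Γ * Real.exp E * Real.exp (-v ^ 2 / (8 * μ)) :=
    integral_mono_of_nonneg (Eventually.of_forall fun v => by positivity) (i8.const_mul _)
      (Eventually.of_forall hb)
  rw [integral_const_mul] at h2
  have hΓE : 0 < Γ * Real.exp E := by positivity
  have h3 : Real.sqrt (Real.pi * (4 * μ)) * ‖LL gk (-μ) ((x : ℂ) + (y : ℂ) * I)‖ ≤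
      Γ * Real.exp E * (2 * Real.sqrt (Real.pi * (4 * μ))) :=
    h1.trans (h2.trans (mul_le_mul_of_nonneg_left v8 hΓE.le))
  have h4 : Real.sqrt (Real.pi * (4 * μ)) * ‖LL gk (-μ) ((x : ℂ) + (y : ℂ) * I)‖ ≤
      Real.sqrt (Real.pi * (4 * μ)) * (2 * (Γ * Real.exp E)) := by
    linarith
  exact le_of_mul_le_mul_left h4 hS

theorem ul (h1 : S_BACK) (h2 : S_FORW) : S_UL := by
  intro R hR
  obtain ⟨K, Q, T00, hK, hT00, hdata⟩ := loc_one
  set C : ℝ := K * (1 + 3 * R ^ 2) + 3 with hC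
  set D : ℝ := K * (1 + 4 * R ^ 2) + K * (1 + 2 * R ^ 2) + 3 with hD
  have hK0 : 0 < K := by linarith
  have hCp : 0 < C := by positivity
  have hDp : 0 < D := by positivity
  set δ : ℝ := 1 / (16 * (1 + 2 * K + D)) with hδ
  have hδp : 0 < δ := by positivity
  refine ⟨C, δ, max T00 (Real.exp 1), hCp, hδp, hT00.trans (le_max_left _ _), ?_⟩
  intro T t μ hT htT ht2 hμ hμL
  have hTT : T00 ≤ T := (le_max_left _ _).trans hT
  have hTe : Real.exp 1 ≤ T := (le_max_right _ _).trans hT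
  have hT10 : 10 ≤ T := hT00.trans hTT
  have hLoc := hdata T t hTT htT ht2
  set L := Real.log T with hL
  have hL1 : 1 ≤ L := by
    rw [hL, Real.le_log_iff_exp_le (by linarith)]
    exact hTe
  set Γ : ℝ := ‖gz ((t : ℂ) * I)‖ with hΓ
  have hΓp : 0 < Γ := hLoc.Γpos
  have hμ1 : μ ≤ δ := by nlinarith
  have hδ1 : 16 * (1 + 2 * K + D) * δ = 1 := by
    rw [hδ]
    field_simp
  have h16 : 16 * K * μ ≤ 1 := by
    have : 16 * K * μ ≤ 16 * (1 + 2 * K + D) * δ := by
      have e1 : 16 * K * μ ≤ 16 * K * δ := mul_le_mul_of_nonneg_left hμ1 (by positivity)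
      have e2 : 16 * K * δ ≤ 16 * (1 + 2 * K + D) * δ :=
        mul_le_mul_of_nonneg_right (by linarith) hδp.le
      linarith
    linarith
  have hup := back_up h1 (μ := μ) (ℓ := L / 2) (Γ := Γ) (K := K) (t := t) hLoc.up hμ hK0.le h16 hΓp
  refine ⟨?_, ?_⟩
  · intro x y hx hxR hy
    refine (hup x y).trans ?_
    rw [abs_of_nonneg hx]
    have hy2 : (y - t) ^ 2 ≤ R ^ 2 := by
      rw [← sq_abs (y - t)]
      exact pow_le_pow_left₀ (abs_nonneg _) hy 2
    have hx2 : x ^ 2 ≤ R ^ 2 := pow_le_pow_left₀ hx hxR 2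
    have h3 : (4 : ℝ) ≤ Real.exp 3 := by linarith [Real.add_one_le_exp (3 : ℝ)]
    have h4 : Real.exp (L * (x / 2 + 1 / 2) + C) =
        Real.exp 3 * Real.exp (L * (x / 2 + 1 / 2) + K * (1 + 3 * R ^ 2)) := by
      rw [← Real.exp_add]
      congr 1
      rw [hC]
      ring
    have h5 : Real.exp (L / 2 * (x + 1) + K * (1 + x ^ 2 + 2 * (y - t) ^ 2)) ≤
        Real.exp (L * (x / 2 + 1 / 2) + K * (1 + 3 * R ^ 2)) := by
      apply Real.exp_le_exp.mpr
      have : K * (1 + x ^ 2 + 2 * (y - t) ^ 2) ≤ K * (1 + 3 * R ^ 2) :=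
        mul_le_mul_of_nonneg_left (by linarith) hK0.le
      linarith
    rw [h4]
    have h6 := mul_le_mul_of_nonneg_left h5 hΓp.le
    have h7 : 0 ≤ Γ * Real.exp (L * (x / 2 + 1 / 2) + K * (1 + 3 * R ^ 2)) := by positivity
    nlinarith
  · intro x y hx hxR hy
    by_contra hcon
    push Not at hcon
    have hy2 : (y - t) ^ 2 ≤ R ^ 2 := by
      rw [← sq_abs (y - t)]
      exact pow_le_pow_left₀ (abs_nonneg _) hy 2
    have hx2 : x ^ 2 ≤ R ^ 2 := pow_le_pow_left₀ (by linarith) hxR 2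
    have h16e : (16 : ℝ) ≤ Real.exp 3 := by
      have h8 : Real.exp 3 = Real.exp 1 * Real.exp 1 * Real.exp 1 := by
        rw [← Real.exp_add, ← Real.exp_add]; norm_num
      have h9 := Real.exp_one_gt_d9
      have h10 : (7 : ℝ) ≤ Real.exp 1 * Real.exp 1 := by nlinarith
      rw [h8]
      nlinarith
    have h8e : (8 : ℝ) ≤ Real.exp 3 := by linarith
    have hS := sqrt_pos' hμ
    obtain ⟨i8, v8⟩ := gauss8 hμ
    have hlow := hLoc.low ((x : ℂ) + (y : ℂ) * I) (by simp; linarith)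
    have e1 : ((x : ℂ) + (y : ℂ) * I).re = x := by simp
    have e2 : ((x : ℂ) + (y : ℂ) * I).im = y := by simp
    rw [e1, e2] at hlow
    set G0 : ℝ := Γ * Real.exp (L / 2 * x - K * (1 + 2 * R ^ 2)) with hG0
    have hG0p : 0 < G0 := by positivity
    have hlow2 : G0 ≤ ‖LL gk 0 ((x : ℂ) + (y : ℂ) * I)‖ := by
      refine le_trans ?_ hlow
      rw [hG0]
      apply mul_le_mul_of_nonneg_left _ hΓp.le
      apply Real.exp_le_exp.mpr
      have : K * (1 + x ^ 2 + (y - t) ^ 2) ≤ K * (1 + 2 * R ^ 2) :=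
        mul_le_mul_of_nonneg_left (by linarith) hK0.le
      linarith
    have hb : ∀ s : ℝ, ‖LL gk (-μ) ((x : ℂ) + (y : ℂ) * I + s)‖ * Real.exp (-s ^ 2 / (4 * μ)) ≤
        (G0 * (1 / 8)) * Real.exp (-s ^ 2 / (8 * μ)) := by
      intro s
      have ez : (x : ℂ) + (y : ℂ) * I + s = ((x + s : ℝ) : ℂ) + (y : ℂ) * I := by
        push_cast; ring
      rw [ez]
      have es : -s ^ 2 / (4 * μ) = -(s ^ 2 / (8 * μ)) + -s ^ 2 / (8 * μ) := by
        field_simp
        ring
      have hs8 : 0 ≤ s ^ 2 / (8 * μ) := by positivity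
      rcases le_or_gt |s| 1 with hs | hs
      · have h3 := (hcon s hs).le
        have h4 : Γ * Real.exp (L * (x / 2) - C) ≤ G0 * (1 / 8) := by
          have h5 : Real.exp (L * (x / 2) - C) ≤
              Real.exp (L / 2 * x - K * (1 + 2 * R ^ 2)) * (1 / 8) := by
            have h6 : Real.exp (L * (x / 2) - C) * Real.exp 3 ≤
                Real.exp (L / 2 * x - K * (1 + 2 * R ^ 2)) := by
              rw [← Real.exp_add]
              apply Real.exp_le_exp.mpr
              rw [hC]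
              have : 0 ≤ K * R ^ 2 := by positivity
              linarith
            have h7 : Real.exp (L * (x / 2) - C) * 8 ≤
                Real.exp (L * (x / 2) - C) * Real.exp 3 :=
              mul_le_mul_of_nonneg_left h8e (Real.exp_pos _).le
            linarith
          have h6 := mul_le_mul_of_nonneg_left h5 hΓp.le
          rw [hG0]
          linarith
        refine mul_le_mul (h3.trans h4) (Real.exp_le_exp.mpr ?_) (Real.exp_pos _).le (by positivity)
        rw [es]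
        linarith
      · have h3 := hup (x + s) y
        have hs2 : |s| ≤ s ^ 2 := by
          rw [← sq_abs s]
          nlinarith
        have hs1 : 1 ≤ s ^ 2 := by linarith
        have h4 : |x + s| ≤ x + s ^ 2 := by
          have := abs_add_le x s
          rw [abs_of_nonneg (by linarith : (0 : ℝ) ≤ x)] at this
          linarith
        have h5 : (x + s) ^ 2 ≤ 2 * R ^ 2 + 2 * s ^ 2 := by
          nlinarith [sq_nonneg (x - s)]
        have h6 : L / 2 * (|x + s| + 1) ≤ L / 2 * (x + 2 * s ^ 2) :=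
          mul_le_mul_of_nonneg_left (by linarith) (by linarith)
        have h7 : K * (1 + (x + s) ^ 2 + 2 * (y - t) ^ 2) ≤
            K * (1 + 4 * R ^ 2 + 2 * s ^ 2) := mul_le_mul_of_nonneg_left (by linarith) hK0.le
        have h9 : (L + 2 * K + D) * s ^ 2 ≤ s ^ 2 / (8 * μ) := by
          rw [le_div_iff₀ (by positivity)]
          have a1 : (L + 2 * K + D) * (8 * μ) ≤ 1 := by
            have b1 : (2 * K + D) * μ ≤ (2 * K + D) * δ :=
              mul_le_mul_of_nonneg_left hμ1 (by positivity)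
            have b2 : L * μ ≤ δ := by linarith
            nlinarith
          calc (L + 2 * K + D) * s ^ 2 * (8 * μ) = ((L + 2 * K + D) * (8 * μ)) * s ^ 2 := by ring
            _ ≤ 1 * s ^ 2 := mul_le_mul_of_nonneg_right a1 (sq_nonneg s)
            _ = s ^ 2 := one_mul _
        have h10 : D ≤ D * s ^ 2 := by nlinarith
        have h11 : 2 * Real.exp (L / 2 * (|x + s| + 1) +
            K * (1 + (x + s) ^ 2 + 2 * (y - t) ^ 2) - s ^ 2 / (8 * μ)) ≤
            Real.exp (L / 2 * x - K * (1 + 2 * R ^ 2)) * (1 / 8) := by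
          have c1 : Real.exp (L / 2 * (|x + s| + 1) +
              K * (1 + (x + s) ^ 2 + 2 * (y - t) ^ 2) - s ^ 2 / (8 * μ)) * Real.exp 3 ≤
              Real.exp (L / 2 * x - K * (1 + 2 * R ^ 2)) := by
            rw [← Real.exp_add]
            apply Real.exp_le_exp.mpr
            rw [hD] at h10
            rw [hD] at h9
            linarith
          have c2 := mul_le_mul_of_nonneg_left h16e (Real.exp_pos (L / 2 * (|x + s| + 1) +
              K * (1 + (x + s) ^ 2 + 2 * (y - t) ^ 2) - s ^ 2 / (8 * μ))).le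
          linarith
        have h12 := mul_le_mul_of_nonneg_left h11 hΓp.le
        rw [es, Real.exp_add, ← mul_assoc]
        apply mul_le_mul_of_nonneg_right _ (Real.exp_pos _).le
        refine (mul_le_mul_of_nonneg_right h3 (Real.exp_pos _).le).trans ?_
        have e5 : 2 * (Γ * Real.exp (L / 2 * (|x + s| + 1) +
            K * (1 + (x + s) ^ 2 + 2 * (y - t) ^ 2))) * Real.exp (-(s ^ 2 / (8 * μ))) =
            Γ * (2 * Real.exp (L / 2 * (|x + s| + 1) +
            K * (1 + (x + s) ^ 2 + 2 * (y - t) ^ 2) - s ^ 2 / (8 * μ))) := by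
          rw [sub_eq_add_neg _ (s ^ 2 / (8 * μ)), Real.exp_add _ (-(s ^ 2 / (8 * μ)))]
          ring
        rw [e5, hG0]
        linarith
    have h3 := h2 μ hμ ((x : ℂ) + (y : ℂ) * I)
    have h4 : ∫ s : ℝ, ‖LL gk (-μ) ((x : ℂ) + (y : ℂ) * I + s)‖ * Real.exp (-s ^ 2 / (4 * μ)) ≤
        ∫ s : ℝ, (G0 * (1 / 8)) * Real.exp (-s ^ 2 / (8 * μ)) :=
      integral_mono_of_nonneg (Eventually.of_forall fun v => by positivity) (i8.const_mul _)
        (Eventually.of_forall hb)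
    rw [integral_const_mul] at h4
    have h5 : Real.sqrt (Real.pi * (4 * μ)) * G0 ≤
        (G0 * (1 / 8)) * (2 * Real.sqrt (Real.pi * (4 * μ))) :=
      (mul_le_mul_of_nonneg_left hlow2 hS.le).trans
        (h3.trans (h4.trans (mul_le_mul_of_nonneg_left v8 (by positivity))))
    have h6 : 0 < Real.sqrt (Real.pi * (4 * μ)) * G0 := by positivity
    linarith

end Pool.Agent.H161.HD
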